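import Pool.Agent.E8helper30.MC.Stm

set_option autoImplicit false

namespace Pool.Agent.E8helper30.MC

open scoped Classical Pointwise

theorem t_BD (hGOOD : S_GOOD) (hUC : S_UC) (hGLOB : S_GLOB) (hFR : S_FR) : S_BD := by
  intro G _ _ t lam hlam ht htG hN hT
  obtain ⟨I, D, X, φ, ℓ, hF, hI1, hI2, hcov, hX⟩ := hFR G t ht htG
  have hIG : I.card ≤ Nat.card G := by
    haveI := Fintype.ofFinite G
    rw [Nat.card_eq_fintype_card]
    exact Finset.card_le_univ I
  obtain ⟨C, hCI, hC2, hb1, hb2⟩ := hGOOD G I D φ ℓ lam hlam (by omega) hF.2.2.2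
  have hu := hUC G I D C φ ℓ (4 * lam) (4 * lam) ((128 * lam ^ 2 + 1) * (8 * lam ^ 2 + 3)) hF hCI
    (by omega) hb1 hb2
  have hule : (128 * lam ^ 2 + 1) * (8 * lam ^ 2 + 3) + 2 * (4 * lam * (4 * lam) * (4 * lam)) ≤
      1100 * lam ^ 4 := by
    obtain ⟨s, rfl⟩ := Nat.exists_eq_add_of_le hlam
    ring_nf
    nlinarith [Nat.zero_le s, Nat.zero_le (s^2), Nat.zero_le (s^3), Nat.zero_le (s^4)]
  have hlt : X.card * (1100 * lam ^ 4) < C.card := by
    have h1 : X.card * I.card * (2 * (1100 * lam ^ 4)) ≤ 2 * Nat.card G * (2 * (1100 * lam ^ 4)) :=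
      Nat.mul_le_mul_right _ hX
    have h2 : t ^ 2 ≤ I.card ^ 2 := Nat.pow_le_pow_left hI1 2
    have h3 : X.card * (2 * (1100 * lam ^ 4)) * I.card < I.card * I.card := by
      calc X.card * (2 * (1100 * lam ^ 4)) * I.card = X.card * I.card * (2 * (1100 * lam ^ 4)) := by
            ring
        _ ≤ 2 * Nat.card G * (2 * (1100 * lam ^ 4)) := h1
        _ = 4400 * Nat.card G * lam ^ 4 := by ring
        _ < t ^ 2 := hT
        _ ≤ I.card ^ 2 := h2
        _ = I.card * I.card := sq _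
    have h4 : X.card * (2 * (1100 * lam ^ 4)) < I.card := lt_of_mul_lt_mul_right h3 (Nat.zero_le _)
    have h5 : 2 * (X.card * (1100 * lam ^ 4)) < 2 * C.card := by
      calc 2 * (X.card * (1100 * lam ^ 4)) = X.card * (2 * (1100 * lam ^ 4)) := by ring
        _ < I.card := h4
        _ ≤ 2 * C.card := hC2
    omega
  refine ⟨(C : Set G), ?_, ?_, ?_⟩
  · have : 0 < C.card := by omega
    exact_mod_cast Finset.card_pos.1 this
  · rw [Set.ncard_coe_finset]
    exact (Finset.card_le_card hCI).trans hI2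
  · exact hGLOB G I C X (1100 * lam ^ 4) (fun W hW => (hu W hW).trans hule) hcov hlt

end Pool.Agent.E8helper30.MC
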