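import Mathlib

/-!
# Project MC (helper30), MP_d8224a_co: `T(G) ≤ C √|G| (log |G|)²` for all finite abelian groups
-/

set_option autoImplicit false

namespace Pool.Agent.E8helper30.MC

open scoped Classical Pointwise

/-- switching lemma -/
def S_SW : Prop := ∀ (α β : Type) (I : Finset α) (J : Finset β) (A : β → Finset α) (a b v j : ℕ),
  (∀ g ∈ J, A g ⊆ I) → (∀ g ∈ J, (A g).card ≤ a) →
  (∀ x ∈ I, (J.filter fun g => x ∈ A g).card ≤ b) →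
  (I.powerset.filter fun C => (∀ g ∈ J, (A g ∩ C).Nonempty) ∧
    v ≤ (C.filter fun c => ∃ g ∈ J, A g ∩ C = {c}).card).card * v.choose j ≤
    2 ^ I.card * (j * b * a).choose j

/-- greedy choice of pairwise disjoint sets -/
def S_DJ : Prop := ∀ (α β : Type) (J : Finset β) (A : β → Finset α) (K b m : ℕ), 1 ≤ K → 1 ≤ b →
  (∀ g ∈ J, (A g).card = K) → (∀ x : α, (J.filter fun g => x ∈ A g).card ≤ b) →
  m * K * b ≤ J.card →
  ∃ B ⊆ J, B.card = m ∧ ∀ g ∈ B, ∀ h ∈ B, g ≠ h → Disjoint (A g) (A h)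

/-- counting sets with at most one element in each of `m` disjoint sets of size `K` -/
def S_CNT : Prop := ∀ (α β : Type) (I : Finset α) (B : Finset β) (A : β → Finset α) (K : ℕ),
  (∀ g ∈ B, A g ⊆ I) → (∀ g ∈ B, (A g).card = K) →
  (∀ g ∈ B, ∀ h ∈ B, g ≠ h → Disjoint (A g) (A h)) →
  (I.powerset.filter fun C => ∀ g ∈ B, (A g ∩ C).card ≤ 1).card * 2 ^ (B.card * K) ≤
    (K + 1) ^ B.card * 2 ^ I.card

/-- consequence of `S_DJ` and `S_CNT` (union bound over `m`-subsets of `J`) -/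
def S_SAT : Prop := ∀ (α β : Type) (I : Finset α) (J : Finset β) (A : β → Finset α) (K b m : ℕ),
  1 ≤ K → 1 ≤ b → (∀ g ∈ J, A g ⊆ I) → (∀ g ∈ J, (A g).card = K) →
  (∀ x : α, (J.filter fun g => x ∈ A g).card ≤ b) →
  (I.powerset.filter fun C =>
    m * K * b ≤ (J.filter fun g => (A g ∩ C).card ≤ 1).card).card * 2 ^ (m * K) ≤
    J.card ^ m * (K + 1) ^ m * 2 ^ I.card

/-- truncation -/
def S_TR : Prop := ∀ (α : Type) (S : Finset α) (φ : α → ℤ) (K : ℕ), ∃ T ⊆ S, T.card ≤ K ∧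
  ∀ θ : ℤ, (S.filter fun w => θ < φ w) ⊆ T ∨ (T.card = K ∧ T ⊆ S.filter fun w => θ < φ w)

/-- number of subsets of size at most `K` -/
def S_SUB : Prop := ∀ (α : Type) (D : Finset α) (K : ℕ),
  (D.powerset.filter fun T => T.card ≤ K).card ≤ (D.card + 1) ^ K

/-- `I` is interval-like: `g - w ∈ I` is decided by `φ` -/
def Frame (G : Type) [AddCommGroup G] (I D : Finset G) (φ : G → ℤ) (ℓ : ℤ) : Prop :=
  (∀ g ∈ I, 0 ≤ φ g ∧ φ g < ℓ) ∧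
  (∀ g ∈ I, ∀ w, g - w ∈ I → w ∈ D ∧ φ g - ℓ < φ w ∧ φ w ≤ φ g) ∧
  (∀ g ∈ I, ∀ w ∈ D, φ g - ℓ < φ w → φ w ≤ φ g → g - w ∈ I) ∧ D.card ≤ 2 * I.card

/-- the elements of `C` that cover some point of `I` alone -/
noncomputable def UC {G : Type} [AddCommGroup G] (I C W : Finset G) : Finset G :=
  C.filter fun c => ∃ g ∈ I, g - c ∈ W ∧ ∀ w ∈ W, g - w ∈ C → g - w = c

/-- bad pairs of truncated sets: the points not cut off by the truncation -/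
noncomputable def Jun {G : Type} [AddCommGroup G] (I T₁ T₂ : Finset G) (φ : G → ℤ) (ℓ : ℤ) (K : ℕ) :
    Finset G :=
  I.filter fun g => (T₁.filter fun w => φ g - ℓ < φ w).card < K ∧
    (T₂.filter fun w => φ w ≤ φ g).card < K

/-- the set `A_g` -/
noncomputable def Ag {G : Type} [AddCommGroup G] (I T : Finset G) (g : G) : Finset G :=
  I.filter fun x => g - x ∈ T

/-- first class of bad sets -/
noncomputable def Bad1 {G : Type} [AddCommGroup G] (I T₁ T₂ : Finset G) (φ : G → ℤ) (ℓ : ℤ)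
    (K v : ℕ) : Finset (Finset G) :=
  I.powerset.filter fun C => (∀ g ∈ Jun I T₁ T₂ φ ℓ K, (Ag I (T₁ ∪ T₂) g ∩ C).Nonempty) ∧
    v ≤ (C.filter fun c => ∃ g ∈ Jun I T₁ T₂ φ ℓ K, Ag I (T₁ ∪ T₂) g ∩ C = {c}).card

/-- second class of bad sets -/
noncomputable def Bad2 {G : Type} [AddCommGroup G] (I T : Finset G) (K m : ℕ) :
    Finset (Finset G) :=
  I.powerset.filter fun C => m * K * K ≤
    ((I.filter fun g => ∀ w ∈ T, g - w ∈ I).filter fun g => (Ag I T g ∩ C).card ≤ 1).card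

/-- good sets exist (probabilistic part); `lam` is the logarithm of the size of `I` -/
def S_GOOD : Prop := ∀ (G : Type) [AddCommGroup G] (I D : Finset G) (φ : G → ℤ) (ℓ : ℤ) (lam : ℕ),
  5 ≤ lam → 2 * I.card + 1 ≤ 2 ^ lam → D.card ≤ 2 * I.card →
  ∃ C ⊆ I, I.card ≤ 2 * C.card ∧
    (∀ T₁ ⊆ D, ∀ T₂ ⊆ D, T₁.card ≤ 4 * lam → T₂.card ≤ 4 * lam →
      C ∉ Bad1 I T₁ T₂ φ ℓ (4 * lam) ((128 * lam ^ 2 + 1) * (8 * lam ^ 2 + 3))) ∧
    (∀ T ⊆ D, T.card = 4 * lam → C ∉ Bad2 I T (4 * lam) (4 * lam))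

/-- a good set has few elements that cover alone -/
def S_UC : Prop := ∀ (G : Type) [AddCommGroup G] (I D C : Finset G) (φ : G → ℤ) (ℓ : ℤ)
  (K m v : ℕ), Frame G I D φ ℓ → C ⊆ I → 1 ≤ K →
  (∀ T₁ ⊆ D, ∀ T₂ ⊆ D, T₁.card ≤ K → T₂.card ≤ K → C ∉ Bad1 I T₁ T₂ φ ℓ K v) →
  (∀ T ⊆ D, T.card = K → C ∉ Bad2 I T K m) →
  ∀ W : Finset G, (∀ g ∈ I, ∃ w ∈ W, g - w ∈ C) → (UC I C W).card ≤ v + 2 * (m * K * K)

/-- minimal complements -/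
def IsMC {G : Type} [AddCommGroup G] (C : Set G) : Prop :=
  ∃ W : Set G, W + C = Set.univ ∧ ∀ C' ⊂ C, W + C' ≠ Set.univ

/-- from the local to the global statement -/
def S_GLOB : Prop := ∀ (G : Type) [AddCommGroup G] [Finite G] (I C X : Finset G) (u : ℕ),
  (∀ W : Finset G, (∀ g ∈ I, ∃ w ∈ W, g - w ∈ C) → (UC I C W).card ≤ u) →
  (∀ g, ∃ x ∈ X, g - x ∈ I) → X.card * u < C.card → ¬ IsMC (C : Set G)

/-- frames in cyclic groups -/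
def S_FRC : Prop := ∀ n t : ℕ, 1 ≤ t → 2 * t ≤ n →
  ∃ (I D X : Finset (ZMod n)) (φ : ZMod n → ℤ) (ℓ : ℤ), Frame (ZMod n) I D φ ℓ ∧ t ≤ I.card ∧
    I.card ≤ 4 * t ∧ (∀ g, ∃ x ∈ X, g - x ∈ I) ∧ X.card * I.card ≤ 2 * n

/-- a subgroup `H` with `|H| ≤ t` maximal, an element `x` of order `p` modulo `H`, `H' = H + ⟨x⟩` -/
def S_SGR : Prop := ∀ (G : Type) [AddCommGroup G] [Finite G] (t : ℕ), 1 ≤ t → t < Nat.card G →
  ∃ (H H' : AddSubgroup G) (x : G) (p : ℕ), Nat.card H ≤ t ∧ t < p * Nat.card H ∧ 2 ≤ p ∧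
    Nat.card H' = p * Nat.card H ∧ (∀ i : ℤ, i • x ∈ H ↔ (p : ℤ) ∣ i)

/-- frame from a subgroup -/
def S_FRH : Prop := ∀ (G : Type) [AddCommGroup G] [Finite G] (H : AddSubgroup G),
  ∃ (I D X : Finset G) (φ : G → ℤ) (ℓ : ℤ), Frame G I D φ ℓ ∧ I.card = Nat.card H ∧
    (∀ g, ∃ x ∈ X, g - x ∈ I) ∧ X.card * I.card = Nat.card G

/-- frame from a subgroup and an interval -/
def S_FRI : Prop := ∀ (G : Type) [AddCommGroup G] [Finite G] (H : AddSubgroup G) (x : G)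
  (p l : ℕ), (∀ i : ℤ, i • x ∈ H ↔ (p : ℤ) ∣ i) → 1 ≤ l → 2 * l ≤ p →
  ∃ (I D X : Finset G) (φ : G → ℤ) (ℓ : ℤ), Frame G I D φ ℓ ∧ I.card = l * Nat.card H ∧
    (∀ g, ∃ x ∈ X, g - x ∈ I) ∧ X.card * I.card ≤ 2 * Nat.card G

/-- frames in general -/
def S_FR : Prop := ∀ (G : Type) [AddCommGroup G] [Finite G] (t : ℕ), 1 ≤ t → t ≤ Nat.card G →
  ∃ (I D X : Finset G) (φ : G → ℤ) (ℓ : ℤ), Frame G I D φ ℓ ∧ t ≤ I.card ∧ I.card ≤ 4 * t ∧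
    (∀ g, ∃ x ∈ X, g - x ∈ I) ∧ X.card * I.card ≤ 2 * Nat.card G

/-- the final bound with `Nat.log` -/
def S_BD : Prop := ∀ (G : Type) [AddCommGroup G] [Finite G] (t lam : ℕ), 5 ≤ lam →
  1 ≤ t → t ≤ Nat.card G → 2 * Nat.card G + 1 ≤ 2 ^ lam →
  4400 * Nat.card G * lam ^ 4 < t ^ 2 →
  ∃ C : Set G, C.Nonempty ∧ C.ncard ≤ 4 * t ∧ ¬ IsMC C

/-- choice of the parameters -/
def S_NUM : Prop := ∃ (c : ℝ) (N : ℕ), 0 < c ∧ ∀ n : ℕ, N ≤ n → ∃ t lam : ℕ, 5 ≤ lam ∧ 1 ≤ t ∧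
  t ≤ n ∧ 2 * n + 1 ≤ 2 ^ lam ∧ 4400 * n * lam ^ 4 < t ^ 2 ∧
  ((4 * t : ℕ) : ℝ) ≤ c * √n * (Real.log n) ^ 2

end Pool.Agent.E8helper30.MC
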